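import Pool.Agent.Helper6.AK.DGoals

/-! AKD-CHR: the character bound for permutations with few fixed points. -/

namespace Pool.Agent.Helper91.AK

open Matrix Equiv Filter Topology Asymptotics Pool.Agent.Helper15.An Pool.Agent.Helper6.FixK
  Pool.Agent.Helper6.T5 Pool.Agent.Helper6.W Pool.Agent.Helper6.AK

/-- the size conditions for large `n` -/
theorem ev_size : ∀ᶠ n : ℕ in atTop, 10 ≤ Real.log n ∧
    1000 * Real.log n ≤ (n : ℝ) ^ (1 / 8 : ℝ) := by
  have h1 : Tendsto (fun n : ℕ => Real.log n) atTop atTop :=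
    Real.tendsto_log_atTop.comp tendsto_natCast_atTop_atTop
  have h0 : Tendsto (fun n : ℕ => (n : ℝ)) atTop atTop := tendsto_natCast_atTop_atTop
  have h2 := (isLittleO_log_rpow_atTop (r := 1 / 8) (by norm_num)).comp_tendsto h0
  have h3 := h2.bound (c := 1 / 1000) (by norm_num)
  filter_upwards [h1.eventually_ge_atTop 10, h3] with n h4 h5
  refine ⟨h4, ?_⟩
  simp only [Function.comp, Real.norm_eq_abs] at h5
  rw [abs_of_nonneg (by linarith), abs_of_nonneg (by positivity)] at h5
  linarith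

theorem exp_bd {L : ℝ} {J R : ℕ} (hL : 10 ≤ L) (hJ : (J : ℝ) ≤ L + 2) (hJ2 : L + 1 ≤ J)
    (hR : 200 * L ^ 2 ≤ R) :
    2 * Real.exp (12 * J * L) * (7 / 8) ^ (R + 1) + 1 / 2 ^ J ≤ Real.exp (-(L / 4)) := by
  have h1 : (7 / 8 : ℝ) ^ (R + 1) ≤ Real.exp (-(200 * L ^ 2 / 8)) := by
    have h2 : (7 / 8 : ℝ) ≤ Real.exp (-(1 / 8)) := by
      have := Real.add_one_le_exp (-(1 / 8) : ℝ)
      linarith
    calc (7 / 8 : ℝ) ^ (R + 1) ≤ (Real.exp (-(1 / 8))) ^ (R + 1) :=
          pow_le_pow_left₀ (by norm_num) h2 _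
      _ = Real.exp (((R + 1 : ℕ) : ℝ) * (-(1 / 8))) := by rw [Real.exp_nat_mul]
      _ ≤ _ := by
          apply Real.exp_le_exp.2
          push_cast
          linarith
  have h3 : (1 : ℝ) / 2 ^ J ≤ Real.exp (-(0.69 * (L + 1))) := by
    have h4 : Real.exp 0.69 ≤ 2 := by
      rw [← Real.le_log_iff_exp_le (by norm_num)]
      have := Real.log_two_gt_d9
      linarith
    have h5 : Real.exp (0.69 * (L + 1)) ≤ 2 ^ J := by
      calc Real.exp (0.69 * (L + 1)) ≤ Real.exp ((J : ℝ) * 0.69) := by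
            apply Real.exp_le_exp.2
            nlinarith
        _ = (Real.exp 0.69) ^ J := by rw [Real.exp_nat_mul]
        _ ≤ 2 ^ J := pow_le_pow_left₀ (Real.exp_pos _).le h4 _
    rw [Real.exp_neg, one_div]
    exact inv_anti₀ (Real.exp_pos _) h5
  have h6 : 2 * Real.exp (12 * J * L) * (7 / 8) ^ (R + 1) ≤
      2 * Real.exp (-(100 * L)) := by
    calc 2 * Real.exp (12 * J * L) * (7 / 8) ^ (R + 1) ≤
          2 * Real.exp (12 * J * L) * Real.exp (-(200 * L ^ 2 / 8)) :=
          mul_le_mul_of_nonneg_left h1 (by positivity)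
      _ = 2 * Real.exp (12 * J * L + -(200 * L ^ 2 / 8)) := by rw [Real.exp_add]; ring
      _ ≤ _ := by
          apply mul_le_mul_of_nonneg_left _ (by norm_num)
          apply Real.exp_le_exp.2
          nlinarith
  have h7 : Real.exp (-(100 * L)) ≤ Real.exp (-(L / 4)) * (1 / 4) := by
    have h8 : Real.exp (-(100 * L)) = Real.exp (-(L / 4)) * Real.exp (-(100 * L - L / 4)) := by
      rw [← Real.exp_add]; congr 1; ring
    rw [h8]
    apply mul_le_mul_of_nonneg_left _ (Real.exp_pos _).le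
    rw [Real.exp_neg, one_div]
    apply inv_anti₀ (by norm_num)
    have := Real.add_one_le_exp (100 * L - L / 4)
    linarith
  have h9 : Real.exp (-(0.69 * (L + 1))) ≤ Real.exp (-(L / 4)) * (1 / 4) := by
    have h8 : Real.exp (-(0.69 * (L + 1))) =
        Real.exp (-(L / 4)) * Real.exp (-(0.69 * (L + 1) - L / 4)) := by
      rw [← Real.exp_add]; congr 1; ring
    rw [h8]
    apply mul_le_mul_of_nonneg_left _ (Real.exp_pos _).le
    rw [Real.exp_neg, one_div]
    apply inv_anti₀ (by norm_num)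
    have := Real.add_one_le_exp (0.69 * (L + 1) - L / 4)
    linarith
  have h10 := Real.exp_pos (-(L / 4))
  linarith

theorem thm : Pool.Agent.Helper6.AK.S_CHR := by
  unfold S_CHR
  filter_upwards [ev_size] with n hn F i hnt g hg
  obtain ⟨hL, hs⟩ := hn
  set L := Real.log n with hLdef
  set s := (n : ℝ) ^ (1 / 8 : ℝ) with hsdef
  have hnpos : (0 : ℝ) < n := by
    rcases Nat.eq_zero_or_pos n with h | h
    · rw [hLdef, h] at hL
      norm_num at hL
    · exact_mod_cast h
  have hs8 : s ^ 8 = n := by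
    rw [hsdef, ← Real.rpow_natCast, ← Real.rpow_mul hnpos.le]
    norm_num
  have hs0 : 10000 ≤ s := by linarith
  have hspos : 0 < s := by linarith
  have hexpL : Real.exp L = n := Real.exp_log hnpos
  have hq : (n : ℝ) ^ (-(1 / 4) : ℝ) = Real.exp (-(L / 4)) := by
    rw [Real.rpow_def_of_pos hnpos]
    congr 1
    ring
  have hq2 : (n : ℝ) ^ (-(1 / 4) : ℝ) = 1 / s ^ 2 := by
    rw [hsdef, ← Real.rpow_natCast, ← Real.rpow_mul hnpos.le, Real.rpow_neg hnpos.le, one_div]
    norm_num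
  set R := ⌈200 * L ^ 2⌉₊ with hR
  have hR1 : 200 * L ^ 2 ≤ R := Nat.le_ceil _
  have hR2 : (R : ℝ) ≤ 201 * L ^ 2 := by
    have := Nat.ceil_lt_add_one (a := 200 * L ^ 2) (by positivity)
    have h1 : (1 : ℝ) ≤ L ^ 2 := by nlinarith only [hL]
    linarith
  have hL2 : 1000000 * L ^ 2 ≤ s ^ 2 := by
    have h1 : (1000 * L) ^ 2 ≤ s ^ 2 := pow_le_pow_left₀ (by linarith) hs 2
    linarith only [h1]
  have hs28 : s ^ 2 * 1000000 ≤ s ^ 8 := by
    have h1 : (10000 : ℝ) ^ 6 ≤ s ^ 6 := pow_le_pow_left₀ (by norm_num) hs0 6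
    have h2 : s ^ 8 = s ^ 2 * s ^ 6 := by ring
    rw [h2]
    apply mul_le_mul_of_nonneg_left _ (by positivity)
    linarith
  have hRn : (R : ℝ) * 1000 ≤ n := by
    rw [← hs8]
    linarith only [hR2, hL2, hs28]
  have hn64 : (1000000 : ℝ) ≤ n := by
    rw [← hs8]
    have h9 := pow_le_pow_left₀ (by norm_num : (0:ℝ) ≤ 10000) hs0 2
    linarith only [h9, hs28]
  have hf : (fixc g : ℝ) ≤ s ^ 4 := by
    have h1 : (fixc g : ℝ) ^ 2 ≤ (s ^ 4) ^ 2 := by
      calc (fixc g : ℝ) ^ 2 ≤ n := hg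
        _ = (s ^ 4) ^ 2 := by rw [← hs8]; ring
    exact (sq_le_sq₀ (by positivity) (by positivity)).1 h1
  have hf2 : 1000 * (s ^ 4) ≤ s ^ 8 := by
    have h1 : (10000 : ℝ) ^ 4 ≤ s ^ 4 := pow_le_pow_left₀ (by norm_num) hs0 4
    have h2 : s ^ 8 = s ^ 4 * s ^ 4 := by ring
    rw [h2]
    apply mul_le_mul_of_nonneg_right _ (by positivity)
    linarith
  have hD0 : (0 : ℝ) ≤ F.D i := Nat.cast_nonneg _
  by_cases hfix : HasFix (F.ρ i) (stab n R)
  · obtain ⟨r, hr0, hrR, hf1, hnf⟩ := exists_level (F.irr i) hnt hfix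
    have hrR' : (r : ℝ) ≤ R := by exact_mod_cast hrR
    have h4r : 4 * r ≤ n := by
      have : (4 : ℝ) * r ≤ n := by linarith
      exact_mod_cast this
    have h1 := char_bound_level hr0 h4r (F.irr i) hf1 hnf g
    set b := 2 * (fixc g : ℝ) / n + 14 * Real.sqrt (r / n) with hb
    have hb0 : 0 ≤ b := by positivity
    have hb1 : b ≤ 1 / s ^ 2 := by
      have h2 : 2 * (fixc g : ℝ) / n ≤ 2 / s ^ 4 := by
        rw [div_le_div_iff₀ hnpos (by positivity), ← hs8]
        have : s ^ 8 = s ^ 4 * s ^ 4 := by ring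
        rw [this]
        have h9 := mul_le_mul_of_nonneg_right hf (pow_pos hspos 4).le
        linarith only [h9]
      have h3 : Real.sqrt (r / n) ≤ 15 * L / s ^ 4 := by
        apply Real.sqrt_le_iff.2
        refine ⟨by positivity, ?_⟩
        rw [div_pow, div_le_div_iff₀ hnpos (by positivity), ← hs8]
        have h5 : (r : ℝ) ≤ (15 * L) ^ 2 := by nlinarith only [hrR', hR2, hL]
        have h6 : (s ^ 4) ^ 2 = s ^ 8 := by ring
        rw [h6]
        exact mul_le_mul_of_nonneg_right h5 (by positivity)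
      have h4 : b ≤ (2 + 14 * (15 * L)) / s ^ 4 := by
        rw [hb]
        calc 2 * (fixc g : ℝ) / n + 14 * Real.sqrt (r / n) ≤ 2 / s ^ 4 + 14 * (15 * L / s ^ 4) := by
              linarith
          _ = _ := by ring
      refine h4.trans ?_
      rw [div_le_div_iff₀ (by positivity) (by positivity)]
      have h5 : 2 + 14 * (15 * L) ≤ s := by linarith
      have h6 : s ^ 4 = s ^ 2 * s ^ 2 := by ring
      rw [h6, one_mul]
      apply mul_le_mul_of_nonneg_right _ (by positivity)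
      nlinarith only [h5, hs0]
    have hb2 : b ≤ 1 := by
      refine hb1.trans ?_
      rw [div_le_one (by positivity)]
      nlinarith only [hs0]
    calc ‖trace (F.ρ i g)‖ ≤ F.D i * b ^ r := h1
      _ ≤ F.D i * b := by
          apply mul_le_mul_of_nonneg_left _ hD0
          calc b ^ r ≤ b ^ 1 := pow_le_pow_of_le_one hb0 hb2 hr0
            _ = b := pow_one b
      _ ≤ F.D i * (1 / s ^ 2) := mul_le_mul_of_nonneg_left hb1 hD0
      _ = _ := by rw [hq2]; ring
  · set J := ⌈L⌉₊ + 1 with hJ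
    have hJ1 : (J : ℝ) ≤ L + 2 := by
      have := Nat.ceil_lt_add_one (a := L) (by linarith)
      rw [hJ]; push_cast; linarith
    have hJ2 : L + 1 ≤ J := by
      have := Nat.le_ceil L
      rw [hJ]; push_cast; linarith
    have hn1 : 64 ≤ n := by
      have : (64 : ℝ) ≤ n := by linarith
      exact_mod_cast this
    have hn2 : 16 * (R + 1) ≤ n := by
      have : (16 : ℝ) * (R + 1) ≤ n := by linarith
      exact_mod_cast this
    have hn3 : 20 * (12 * J + 1) ≤ n := by
      have hLL : L ≤ L ^ 2 := by nlinarith only [hL]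
      have : (20 : ℝ) * (12 * J + 1) ≤ n := by rw [hs8] at hs28; linarith
      exact_mod_cast this
    have hn4 : 10 * fixc g < n := by
      have : (10 : ℝ) * fixc g < n := by
        rw [← hs8]
        have h9 := pow_pos hspos 4
        linarith only [h9, hf, hf2]
      exact_mod_cast this
    have h1 := char_bound_mat (F.ρ i) (fun g => (F.irr i).unit g) R hfix hn1 hn2 J hn3 g hn4
    refine h1.trans ?_
    apply mul_le_mul_of_nonneg_right _ hD0
    rw [hq]
    have h2 : (n : ℝ) ^ (12 * J) = Real.exp (12 * J * L) := by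
      rw [← hexpL, ← Real.exp_nat_mul]
      push_cast
      rfl
    rw [h2]
    exact exp_bd hL hJ1 hJ2 hR1

end Pool.Agent.Helper91.AK
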